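import Pool.Agent.H162R3.SK.Stmts

set_option autoImplicit false

open Set Cardinal

namespace Pool.Agent.H104R3.SK

open Pool.Agent.H162R3.SK

theorem taskRet : TaskRet := by
  intro X _ _ _ A hA
  have key : ∀ x : X, ∃ z : X, z ∈ closure (Pt A) ∧ ∀ ψ ∈ Fn A, ψ z = ψ x := by
    intro x
    have hc : IsCompact (closure (Pt A)) := isClosed_closure.isCompact
    have h := hc.inter_iInter_nonempty (fun ψ : Fn A => {z : X | (ψ : C(X, ℝ)) z = (ψ : C(X, ℝ)) x})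
      (fun ψ => isClosed_eq (ψ : C(X, ℝ)).continuous continuous_const) ?_
    · obtain ⟨z, hz, hz2⟩ := h
      refine ⟨z, hz, fun ψ hψ => ?_⟩
      exact Set.mem_iInter.1 hz2 ⟨ψ, hψ⟩
    · intro u
      obtain ⟨f, -, -, h2, h3, -⟩ := hA ((fun ψ : Fn A => (Sum.inr (ψ : C(X, ℝ)) : X ⊕ C(X, ℝ))) '' (u : Set (Fn A)))
        (by
          rintro _ ⟨ψ, -, rfl⟩
          exact ψ.2) (u.finite_toSet.image _)
      refine ⟨f x, h3 x, ?_⟩
      simp only [Set.mem_iInter, Set.mem_setOf_eq]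
      intro ψ hψ
      exact h2 (ψ : C(X, ℝ)) ⟨ψ, hψ, rfl⟩ x
  choose r hr using key
  exact ⟨r, fun x => (hr x).1, fun ψ hψ x => (hr x).2 ψ hψ⟩

end Pool.Agent.H104R3.SK
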